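import Pool.Agent.Work.MP_8df50c_lc.Final
import Pool.Agent.Work.MP_8df50c_lc.IsFieldProof

set_option autoImplicit false

/-!
Negative answer to Q1: if `K/F` is a computable field extension whose set of degrees
`[F(α) : F]` is unbounded, then for every cohesive `C` the extension `∏_C K / ∏_C F` is
transcendental, that is, not algebraic.

The definitions are in `Pool/Agent/Work/MP_8df50c_lc/Defs.lean`.  That cohesive powers of
computable fields by cohesive sets are fields is proved in `isField_cohesivePower`.
-/

namespace Pool.Agent.Results.MP_8df50c_lc.AlwaysTranscendental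

open Pool.Agent.Work.MP_8df50c_lc

theorem result (C : Set ℕ) (_hC : Cohesive C) {F K : Type*} [Field F] [Field K] [Algebra F K]
    (PF : ComputableField F) (PK : ComputableField K) (hFK : ComputableEmbedding PF PK)
    (hdeg : ∀ n : ℕ, ∃ α : K, (n : Cardinal) < Module.rank F (IntermediateField.adjoin F {α})) :
    ¬ PowerExtensionAlgebraic PF PK C :=
  not_powerExtensionAlgebraic PF PK hFK C hdeg

end Pool.Agent.Results.MP_8df50c_lc.AlwaysTranscendental
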